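import Mathlib
import Pool.Agent.Helper78_ACIT.Circuit
import Pool.Agent.Helper12_FV.Bound
import Pool.Agent.Helper26_TOR.All

set_option autoImplicit false

/-!
# Squad TOR: exponents in binary

After the substitution `x_i = ∏ j, y_j ^ (α_j ^ i mod q)` a sum of products of powers is a polynomial in
`t` variables of the class of `Helper12_FV`.
-/

namespace Pool.Agent.TOR.H82

open MvPolynomial Pool.Agent.Helper78_ACIT Pool.Agent.UO

variable {t : ℕ}

/-- The exponent vector of the image of `x ^ s`. -/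
noncomputable def ev (q : ℕ) (α : Fin t → Fin q) (s : ℕ →₀ ℕ) : Fin t →₀ ℕ :=
  Finsupp.equivFunOnFinite.symm fun j => ∑ i ∈ s.support, ((α j : ℕ) ^ i % q) * s i

lemma ev_apply (q : ℕ) (α : Fin t → Fin q) (s : ℕ →₀ ℕ) (j : Fin t) :
    ev q α s j = ∑ i ∈ s.support, ((α j : ℕ) ^ i % q) * s i := rfl

/-- The substitution. -/
noncomputable def mo (n q : ℕ) (α : Fin t → Fin q) : MvPolynomial ℕ ℤ →ₐ[ℤ] MvPolynomial (Fin t) ℤ :=
  aeval (tpoint n q α (fun j => (X j : MvPolynomial (Fin t) ℤ)))

lemma mo_monomial (n q : ℕ) (α : Fin t → Fin q) (s : ℕ →₀ ℕ) (hs : s.support ⊆ Finset.range n)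
    (a : ℤ) : mo n q α (monomial s a) = monomial (ev q α s) a := by
  classical
  unfold mo
  rw [aeval_monomial, Finsupp.prod, monomial_eq, algebraMap_eq,
    Finsupp.prod_fintype _ _ (fun i => pow_zero _)]
  congr 1
  have h1 : ∀ i ∈ s.support, tpoint n q α (fun j => (X j : MvPolynomial (Fin t) ℤ)) i ^ s i =
      ∏ j, X j ^ (((α j : ℕ) ^ i % q) * s i) := by
    intro i hi
    unfold tpoint
    rw [if_pos (Finset.mem_range.1 (hs hi)), ← Finset.prod_pow]
    exact Finset.prod_congr rfl fun j _ => by rw [pow_mul]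
  rw [Finset.prod_congr rfl h1, Finset.prod_comm]
  refine Finset.prod_congr rfl fun j _ => ?_
  rw [Finset.prod_pow_eq_pow_sum, ev_apply]

lemma supp_range {n : ℕ} {R : Type} [CommRing R] {f : MvPolynomial ℕ R}
    (hf : f.vars ⊆ Finset.range n) : ∀ s ∈ f.support, s.support ⊆ Finset.range n := by
  intro s hs i hi
  exact hf ((mem_vars_iff_mem_support i).2 ⟨s, hs, hi⟩)

lemma mo_eq (n q : ℕ) (α : Fin t → Fin q) (f : MvPolynomial ℕ ℤ) (hf : f.vars ⊆ Finset.range n) :
    mo n q α f = ∑ s ∈ f.support, monomial (ev q α s) (coeff s f) := by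
  conv_lhs => rw [f.as_sum]
  rw [map_sum]
  exact Finset.sum_congr rfl fun s hs => mo_monomial n q α s (supp_range hf s hs) _

lemma coeff_mo (n q : ℕ) (α : Fin t → Fin q) (f : MvPolynomial ℕ ℤ)
    (hf : f.vars ⊆ Finset.range n) (d : Fin t →₀ ℕ) :
    coeff d (mo n q α f) = ∑ s ∈ f.support with ev q α s = d, coeff s f := by
  classical
  rw [mo_eq n q α f hf, coeff_sum, Finset.sum_filter]
  exact Finset.sum_congr rfl fun s _ => coeff_monomial _ _ _

lemma sum_ev_le (q : ℕ) (α : Fin t → Fin q) (s : ℕ →₀ ℕ) :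
    ∑ j, ev q α s j ≤ t * (q * s.degree) := by
  have h1 : ∀ j, ev q α s j ≤ q * s.degree := by
    intro j
    have h0 : s.degree = ∑ i ∈ s.support, s i := rfl
    rw [ev_apply, h0, Finset.mul_sum]
    refine Finset.sum_le_sum fun i _ => Nat.mul_le_mul_right _ ?_
    exact (Nat.mod_lt _ (lt_of_le_of_lt (Nat.zero_le _) (α j).2)).le
  calc ∑ j, ev q α s j ≤ ∑ _j : Fin t, q * s.degree := Finset.sum_le_sum fun j _ => h1 j
    _ = t * (q * s.degree) := by simp

lemma totalDegree_mo (n q D : ℕ) (α : Fin t → Fin q) (f : MvPolynomial ℕ ℤ)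
    (hf : f.vars ⊆ Finset.range n) (hD : f.totalDegree ≤ D) :
    (mo n q α f).totalDegree ≤ D * t * q := by
  classical
  rw [mo_eq n q α f hf]
  refine totalDegree_finsetSum_le fun s hs => ?_
  refine (totalDegree_monomial_le _ _).trans ?_
  rw [Finsupp.sum_fintype _ _ (fun _ => rfl)]
  refine (sum_ev_le q α s).trans ?_
  have h1 : s.degree ≤ D := (le_totalDegree hs).trans hD
  calc t * (q * s.degree) ≤ t * (q * D) := Nat.mul_le_mul_left _ (Nat.mul_le_mul_left _ h1)
    _ = D * t * q := by ring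

lemma len_mo (n q : ℕ) (α : Fin t → Fin q) (f : MvPolynomial ℕ ℤ)
    (hf : f.vars ⊆ Finset.range n) : Helper12_FV.len (mo n q α f) ≤ length f := by
  classical
  unfold Helper12_FV.len length
  calc ∑ d ∈ (mo n q α f).support, (coeff d (mo n q α f)).natAbs
      ≤ ∑ d ∈ (mo n q α f).support, ∑ s ∈ f.support with ev q α s = d, (coeff s f).natAbs := by
        refine Finset.sum_le_sum fun d _ => ?_
        rw [coeff_mo n q α f hf]
        exact Int.natAbs_sum_le _ _
    _ ≤ ∑ s ∈ f.support, (coeff s f).natAbs := by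
        rw [Finset.sum_comm' (t' := f.support) (s' := fun s =>
          (mo n q α f).support.filter fun d => ev q α s = d)]
        · refine Finset.sum_le_sum fun s _ => ?_
          rw [Finset.sum_const, smul_eq_mul]
          have h1 : ((mo n q α f).support.filter fun d => ev q α s = d).card ≤ 1 := by
            rw [Finset.card_le_one]
            intro a ha b hb
            rw [← (Finset.mem_filter.1 ha).2, ← (Finset.mem_filter.1 hb).2]
          calc _ ≤ 1 * (coeff s f).natAbs := Nat.mul_le_mul_right _ h1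
            _ = _ := one_mul _
        · intro d s
          simp only [Finset.mem_filter]
          tauto

lemma prim_mo (n q : ℕ) (α : Fin t → Fin q) (f : MvPolynomial ℕ ℤ)
    (hf : f.vars ⊆ Finset.range n) (hinj : ∀ u ∈ f.support, ∀ v ∈ f.support, u ≠ v →
      ev q α u ≠ ev q α v) (hprim : ∀ z : ℤ, C z ∣ f → IsUnit z) (z : ℤ)
    (hz : C z ∣ mo n q α f) : IsUnit z := by
  classical
  apply hprim
  rw [C_dvd_iff_dvd_coeff] at hz ⊢
  intro s
  by_cases hs : s ∈ f.support
  · have h1 := hz (ev q α s)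
    rw [coeff_mo n q α f hf] at h1
    rw [Finset.sum_eq_single s] at h1
    · exact h1
    · intro u hu hus
      rw [Finset.mem_filter] at hu
      exact absurd hu.2 (hinj u hu.1 s hs hus)
    · intro h
      refine (h ?_).elim
      exact Finset.mem_filter.2 ⟨hs, rfl⟩
  · rw [notMem_support_iff.1 hs]
    exact dvd_zero _

lemma eval_mo {E : Type} [Field E] (n q : ℕ) (α : Fin t → Fin q) (y : Fin t → E)
    (f : MvPolynomial ℕ ℤ) : eval (tpoint n q α y) (map (Int.castRingHom E) f) =
      eval y (map (Int.castRingHom E) (mo n q α f)) := by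
  have h : (eval (tpoint n q α y)).comp (map (Int.castRingHom E)) =
      ((eval y).comp (map (Int.castRingHom E))).comp (mo n q α).toRingHom := by
    apply MvPolynomial.ringHom_ext
    · intro a
      simp
    · intro i
      simp only [RingHom.comp_apply, map_X, eval_X, AlgHom.toRingHom_eq_coe, RingHom.coe_coe, mo,
        aeval_X, tpoint]
      split_ifs <;> simp
  exact RingHom.congr_fun h f

/-! ### The binomials -/

/-- The pairs of different monomials of `f`. -/
noncomputable def prs (f : MvPolynomial ℕ ℤ) : Finset ((ℕ →₀ ℕ) × (ℕ →₀ ℕ)) := by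
  classical exact f.support.offDiag

lemma mem_prs {f : MvPolynomial ℕ ℤ} {p : (ℕ →₀ ℕ) × (ℕ →₀ ℕ)} :
    p ∈ prs f ↔ p.1 ∈ f.support ∧ p.2 ∈ f.support ∧ p.1 ≠ p.2 := by
  unfold prs
  exact Finset.mem_offDiag

lemma card_prs (f : MvPolynomial ℕ ℤ) : (prs f).card ≤ f.support.card ^ 2 := by
  classical
  unfold prs
  rw [Finset.offDiag_card, sq]
  exact Nat.sub_le _ _

/-- The binomial `x ^ u - x ^ v`. -/
noncomputable def bin (E : Type) [Field E] (p : (ℕ →₀ ℕ) × (ℕ →₀ ℕ)) : MvPolynomial ℕ E :=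
  monomial p.1 1 - monomial p.2 1

lemma bin_ne {E : Type} [Field E] {p : (ℕ →₀ ℕ) × (ℕ →₀ ℕ)} (h : p.1 ≠ p.2) : bin E p ≠ 0 := by
  classical
  intro h0
  have h1 := congrArg (coeff p.1) h0
  unfold bin at h1
  rw [coeff_sub, coeff_monomial, coeff_monomial, if_pos rfl, if_neg (Ne.symm h), coeff_zero,
    sub_zero] at h1
  exact one_ne_zero h1

lemma bin_supp {E : Type} [Field E] (p : (ℕ →₀ ℕ) × (ℕ →₀ ℕ)) :
    (bin E p).support ⊆ {p.1, p.2} := by
  classical
  unfold bin
  refine (support_sub _ _ _).trans (Finset.union_subset ?_ ?_)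
  · refine (support_monomial_subset).trans ?_
    simp
  · refine (support_monomial_subset).trans ?_
    simp

lemma bin_thin {E : Type} [Field E] (c n : ℕ) (hc : 1 ≤ c) (p : (ℕ →₀ ℕ) × (ℕ →₀ ℕ))
    (h1 : p.1.support ⊆ Finset.range n) (h2 : p.2.support ⊆ Finset.range n) :
    IsThinX E c n (bin E p) := by
  classical
  apply H26.thinX
  · intro i hi
    obtain ⟨s, hs, his⟩ := (mem_vars_iff_mem_support i).1 hi
    have h3 := bin_supp p hs
    rw [Finset.mem_insert, Finset.mem_singleton] at h3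
    rcases h3 with rfl | rfl
    · exact h1 his
    · exact h2 his
  · left
    exact (Finset.card_le_card (bin_supp p)).trans ((Finset.card_le_two).trans (by omega))

/-- A product of few binomials is in the class. -/
lemma cmp_bins {E : Type} [Field E] (k c n s : ℕ) (hk : 1 ≤ k) (hc : 1 ≤ c) (hs : 1 ≤ s)
    (L : List ((ℕ →₀ ℕ) × (ℕ →₀ ℕ))) (hL : L.length ≤ s)
    (hLn : ∀ p ∈ L, p.1.support ⊆ Finset.range n ∧ p.2.support ⊆ Finset.range n) :
    IsCmpX E k c n s ((L.map (bin E)).prod) := by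
  classical
  have h1 : IsThinX E c n (1 : MvPolynomial ℕ E) := by
    apply H26.thinX
    · simp
    · right
      simp
  refine ⟨1, fun _ => (L.map (bin E)).prod, X 0, fun _ => ?_, fun S _ => ?_, by rw [aeval_X]⟩
  · refine ⟨L.length, 1, fun v => bin E (L.get v), fun _ => 1, fun _ => 1, fun _ => 1, hL, hs,
      fun v => bin_thin c n hc _ (hLn _ (List.get_mem _ _)).1 (hLn _ (List.get_mem _ _)).2,
      fun _ => h1, fun _ => ⟨h1, one_ne_zero⟩, ?_⟩
    have h2 : ∏ v, bin E (L.get v) = (L.map (bin E)).prod := by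
      rw [← List.prod_ofFn]
      have h3 : List.map (bin E) (List.ofFn fun v => L.get v) =
          List.ofFn (bin E ∘ fun v => L.get v) := List.map_ofFn
      rw [List.ofFn_get] at h3
      rw [h3]
      rfl
    simp only [pow_one, Finset.prod_const_one, mul_one, Finset.univ_unique, Finset.sum_singleton]
    rw [h2]
  · refine (Finset.card_le_univ S).trans ?_
    simpa using hk

end Pool.Agent.TOR.H82
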