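import Mathlib
import Pool.Agent.Helper12_FV.Bound
import Pool.Agent.Helper82_TOR.Bin

set_option autoImplicit false

/-!
# Squad TOR: exponents in binary, the hitting theorem and the test
-/

namespace Pool.Agent.TOR.H82

open Polynomial Pool.Agent.Helper78_ACIT Pool.Agent.UO

/-- Sums of products of powers in few variables (`Helper12_FV`). -/
theorem exists_few {n : ℕ} (m k D b : ℕ) (f : Fin m → MvPolynomial (Fin n) ℤ)
    (A : Fin k → MvPolynomial (Fin n) ℤ) (e : Fin k → Fin m → ℕ)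
    (hprim : ∀ j, ∀ z : ℤ, MvPolynomial.C z ∣ f j → IsUnit z)
    (hfD : ∀ j, (f j).totalDegree ≤ D) (hAD : ∀ i, (A i).totalDegree ≤ D)
    (hfb : ∀ j, Helper12_FV.len (f j) ≤ 2 ^ b) (hAb : ∀ i, Helper12_FV.len (A i) ≤ 2 ^ b)
    (he : ∀ i j, e i j ≤ 2 ^ b) (hF : ∑ i, A i * ∏ j, f j ^ e i j ≠ 0) :
    ∃ p, p.Prime ∧ p ≤ (m + k + b + D + 2) ^ 50 ∧ ∃ α β : Fin n → ZMod p,
      ¬ (X : (ZMod p)[X]) ^ (k ^ 2 * m * D + k * D + k) ∣
        Helper12_FV.onl α β (∑ i, A i * ∏ j, f j ^ e i j) := by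
  obtain ⟨R, hR⟩ : ∃ R, R = m + k + b + D + 2 := ⟨_, rfl⟩
  obtain ⟨hb1, hb2, hb3, hb4⟩ := Helper12_FV.bound_le m k b D R hR
  obtain ⟨p, hp, hple, α, β, hhit⟩ := Helper12_FV.exists_hit_general m k D (m * D) b (m + D + b)
    (R ^ 6) (12 * R) (R ^ 11) (k * (D + k * (m * D))) f A e hprim hfD hAD hfb hAb he le_rfl
    le_rfl rfl (Nat.one_le_pow _ _ (by omega)) hb1 hb2 hb3 hF
  refine ⟨p, hp, ?_, α, β, ?_⟩
  · rw [← hR]
    exact hple.trans hb4
  · apply hhit
    have : k * (D + k * (m * D)) = k ^ 2 * m * D + k * D := by ring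
    rw [this]

variable {t : ℕ}

/-- Substituting the curve `y = β + γ X` of the generator into a polynomial over `ℤ`. -/
noncomputable def lineM (n q p : ℕ) (α : Fin t → Fin q) (β γ : Fin t → ZMod p) :
    MvPolynomial ℕ ℤ →+* (ZMod p)[X] :=
  MvPolynomial.eval₂Hom (Int.castRingHom (ZMod p)[X])
    (tpoint n q α fun j => C (β j) + C (γ j) * X)

lemma lineM_eq (n q p : ℕ) (α : Fin t → Fin q) (β γ : Fin t → ZMod p) (F : MvPolynomial ℕ ℤ) :
    lineM n q p α β γ F = Helper12_FV.onl β γ (mo n q α F) := by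
  have h : lineM n q p α β γ = (Helper12_FV.onl β γ).comp (mo n q α).toRingHom := by
    apply MvPolynomial.ringHom_ext
    · intro z
      rw [RingHom.comp_apply]
      have h1 : (mo n q α).toRingHom (MvPolynomial.C z) = MvPolynomial.C z :=
        (mo n q α).commutes z
      rw [h1, Helper12_FV.onl_C]
      simp [lineM]
    · intro i
      simp only [lineM, MvPolynomial.coe_eval₂Hom, MvPolynomial.eval₂_X, RingHom.comp_apply,
        AlgHom.toRingHom_eq_coe, RingHom.coe_coe, mo, MvPolynomial.aeval_X, tpoint]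
      split_ifs
      · rw [map_prod]
        exact Finset.prod_congr rfl fun j _ => by rw [map_pow, Helper12_FV.onl_X]
      · rw [map_zero]
  exact RingHom.congr_fun h F

/-- The value of the circuit `G` at the point `x_i = ∏ j < t, (β_j + γ_j X) ^ (α_j ^ i mod q)` in
`F_p[X] / (X ^ R)`. -/
noncomputable def powValue (n q p R : ℕ) (α : Fin t → Fin q) (β γ : Fin t → ZMod p)
    (G : List Gate) : AdjoinRoot (X ^ R : (ZMod p)[X]) :=
  out (tpoint n q α fun j => AdjoinRoot.of _ (β j) + AdjoinRoot.of _ (γ j) * AdjoinRoot.root _) G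

lemma powValue_eq (n q p R : ℕ) (α : Fin t → Fin q) (β γ : Fin t → ZMod p) (G : List Gate) :
    powValue n q p R α β γ G = AdjoinRoot.mk _ (lineM n q p α β γ (poly G)) := by
  have h1 := out_map (AdjoinRoot.mk (X ^ R : (ZMod p)[X]))
    (tpoint n q α fun j => C (β j) + C (γ j) * X) G
  have h2 : (fun s => AdjoinRoot.mk (X ^ R : (ZMod p)[X])
      (tpoint n q α (fun j => C (β j) + C (γ j) * X) s)) =
      tpoint n q α fun j => AdjoinRoot.of (X ^ R : (ZMod p)[X]) (β j) +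
        AdjoinRoot.of _ (γ j) * AdjoinRoot.root _ := by
    funext s
    unfold tpoint
    split_ifs
    · simp only [map_prod, map_pow, map_mul, map_add, AdjoinRoot.mk_C, AdjoinRoot.mk_X]
    · rw [map_zero]
  rw [h2] at h1
  unfold powValue
  rw [← h1, out_eq_eval]
  rfl

/-- A nonzero sum of products of powers of the class is hit. -/
theorem exists_bin (E : Type) [Field E] [CharZero E] (k c n s q : ℕ) (hq : q.Prime)
    (ht : 6 * k * c + k + 1 ≤ t) (hQ : (n + s + k + 2) ^ (6 * k + 5) ≤ q) (hk : 1 ≤ k)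
    (hc : 1 ≤ c) (hs : 2 ≤ s) (m N b D : ℕ) (f : Fin m → MvPolynomial ℕ ℤ)
    (A : Fin N → MvPolynomial ℕ ℤ) (e : Fin N → Fin m → ℕ)
    (hfn : ∀ j, (f j).vars ⊆ Finset.range n) (hAn : ∀ i, (A i).vars ⊆ Finset.range n)
    (hprim : ∀ j, ∀ z : ℤ, MvPolynomial.C z ∣ f j → IsUnit z)
    (hfD : ∀ j, (f j).totalDegree ≤ D) (hAD : ∀ i, (A i).totalDegree ≤ D)
    (hfb : ∀ j, length (f j) ≤ 2 ^ b) (hAb : ∀ i, length (A i) ≤ 2 ^ b)
    (he : ∀ i j, e i j ≤ 2 ^ b) (hms : ∑ j, (f j).support.card ^ 2 ≤ s)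
    (hF0 : ∑ i, A i * ∏ j, f j ^ e i j ≠ 0)
    (hcls : IsCmpX E k c n s
      (MvPolynomial.map (Int.castRingHom E) (∑ i, A i * ∏ j, f j ^ e i j))) :
    ∃ p, p.Prime ∧ p ≤ (m + N + b + D * t * q + 2) ^ 50 ∧
      ∃ (α : Fin t → Fin q) (β γ : Fin t → ZMod p),
      ¬ (X : (ZMod p)[X]) ^ (N ^ 2 * m * (D * t * q) + N * (D * t * q) + N) ∣
        lineM n q p α β γ (∑ i, A i * ∏ j, f j ^ e i j) := by
  classical
  obtain ⟨F, hF⟩ : ∃ F, F = ∑ i, A i * ∏ j, f j ^ e i j := ⟨_, rfl⟩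
  rw [← hF] at hF0 hcls ⊢
  obtain ⟨L, hL⟩ : ∃ L : List ((ℕ →₀ ℕ) × (ℕ →₀ ℕ)), L =
      (List.finRange m).flatMap fun j => (prs (f j)).toList := ⟨_, rfl⟩
  have hmem : ∀ p, p ∈ L ↔ ∃ j, p ∈ prs (f j) := by
    intro p
    rw [hL, List.mem_flatMap]
    constructor
    · rintro ⟨j, -, hj⟩
      exact ⟨j, Finset.mem_toList.1 hj⟩
    · rintro ⟨j, hj⟩
      exact ⟨j, List.mem_finRange j, Finset.mem_toList.2 hj⟩
  have hLlen : L.length ≤ s := by
    refine le_trans ?_ hms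
    rw [hL, List.length_flatMap, ← List.ofFn_eq_map, List.sum_ofFn]
    refine Finset.sum_le_sum fun j _ => ?_
    rw [Finset.length_toList]
    exact card_prs _
  have hL0 : (L.map (bin E)).prod ≠ 0 := by
    intro h
    rw [List.prod_eq_zero_iff, List.mem_map] at h
    obtain ⟨p, hp, hp0⟩ := h
    obtain ⟨j, hj⟩ := (hmem p).1 hp
    exact bin_ne (mem_prs.1 hj).2.2 hp0
  have hLc : IsCmpX E k c n s ((L.map (bin E)).prod) := by
    refine cmp_bins k c n s hk hc (by omega) L hLlen fun p hp => ?_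
    obtain ⟨j, hj⟩ := (hmem p).1 hp
    obtain ⟨h1, h2, -⟩ := mem_prs.1 hj
    exact ⟨supp_range (hfn j) _ h1, supp_range (hfn j) _ h2⟩
  have hFE : MvPolynomial.map (Int.castRingHom E) F ≠ 0 := by
    intro h
    apply hF0
    apply MvPolynomial.map_injective (Int.castRingHom E) (RingHom.injective_int _)
    rw [h, map_zero]
  obtain ⟨α, y, hy⟩ := aHitX E k c n s t q hq ht hQ
    [MvPolynomial.map (Int.castRingHom E) F, (L.map (bin E)).prod] (by simpa using hs)
    (by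
      intro G hG
      rw [List.mem_cons, List.mem_singleton] at hG
      rcases hG with rfl | rfl
      · exact hcls
      · exact hLc) (by
      rw [List.prod_cons, List.prod_singleton]
      exact mul_ne_zero hFE hL0)
  rw [List.prod_cons, List.prod_singleton, map_mul] at hy
  have hy1 := left_ne_zero_of_mul hy
  have hy2 := right_ne_zero_of_mul hy
  have hinj : ∀ j, ∀ u ∈ (f j).support, ∀ v ∈ (f j).support, u ≠ v → ev q α u ≠ ev q α v := by
    intro j u hu v hv huv h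
    rw [map_list_prod] at hy2
    apply hy2
    rw [List.prod_eq_zero_iff, List.mem_map]
    refine ⟨bin E (u, v), List.mem_map.2 ⟨(u, v), (hmem _).2 ⟨j, mem_prs.2 ⟨hu, hv, huv⟩⟩, rfl⟩, ?_⟩
    have h1 : ∀ w : ℕ →₀ ℕ, w.support ⊆ Finset.range n →
        MvPolynomial.eval (tpoint n q α y) (MvPolynomial.monomial w (1 : E)) =
        MvPolynomial.eval y (MvPolynomial.monomial (ev q α w) (1 : E)) := by
      intro w hw
      have h2 := eval_mo n q α y (MvPolynomial.monomial w (1 : ℤ))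
      rw [mo_monomial n q α w hw, MvPolynomial.map_monomial, MvPolynomial.map_monomial] at h2
      simpa using h2
    unfold bin
    rw [map_sub, h1 _ (supp_range (hfn j) _ hu), h1 _ (supp_range (hfn j) _ hv), h, sub_self]
  have hmF : mo n q α F = ∑ i, mo n q α (A i) * ∏ j, mo n q α (f j) ^ e i j := by
    rw [hF]
    simp only [map_sum, map_mul, map_prod, map_pow]
  have hmF0 : ∑ i, mo n q α (A i) * ∏ j, mo n q α (f j) ^ e i j ≠ 0 := by
    rw [← hmF]
    intro h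
    apply hy1
    rw [eval_mo, h, map_zero, map_zero]
  obtain ⟨p, hp, hple, β, γ, hn⟩ := exists_few m N (D * t * q) b (fun j => mo n q α (f j))
    (fun i => mo n q α (A i)) e (fun j z hz => prim_mo n q α (f j) (hfn j) (hinj j) (hprim j) z hz)
    (fun j => totalDegree_mo n q D α (f j) (hfn j) (hfD j))
    (fun i => totalDegree_mo n q D α (A i) (hAn i) (hAD i))
    (fun j => (len_mo n q α (f j) (hfn j)).trans (hfb j))
    (fun i => (len_mo n q α (A i) (hAn i)).trans (hAb i)) he hmF0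
  refine ⟨p, hp, hple, α, β, γ, ?_⟩
  rw [lineM_eq, hmF]
  exact hn

/-- The test for circuits of unbounded degree. -/
theorem test_bin (E : Type) [Field E] [CharZero E] (k c n s q : ℕ) (hq : q.Prime)
    (ht : 6 * k * c + k + 1 ≤ t) (hQ : (n + s + k + 2) ^ (6 * k + 5) ≤ q) (hk : 1 ≤ k)
    (hc : 1 ≤ c) (hs : 2 ≤ s) (m N b D : ℕ) (f : Fin m → MvPolynomial ℕ ℤ)
    (A : Fin N → MvPolynomial ℕ ℤ) (e : Fin N → Fin m → ℕ)
    (hfn : ∀ j, (f j).vars ⊆ Finset.range n) (hAn : ∀ i, (A i).vars ⊆ Finset.range n)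
    (hprim : ∀ j, ∀ z : ℤ, MvPolynomial.C z ∣ f j → IsUnit z)
    (hfD : ∀ j, (f j).totalDegree ≤ D) (hAD : ∀ i, (A i).totalDegree ≤ D)
    (hfb : ∀ j, length (f j) ≤ 2 ^ b) (hAb : ∀ i, length (A i) ≤ 2 ^ b)
    (he : ∀ i j, e i j ≤ 2 ^ b) (hms : ∑ j, (f j).support.card ^ 2 ≤ s)
    (G : List Gate) (hG : WellFormed G)
    (hpoly : poly G = 0 ∨ (∑ i, A i * ∏ j, f j ^ e i j ≠ 0 ∧
      IsCmpX E k c n s (MvPolynomial.map (Int.castRingHom E) (∑ i, A i * ∏ j, f j ^ e i j)) ∧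
      poly G ∣ ∑ i, A i * ∏ j, f j ^ e i j)) :
    G ∈ ACIT ↔ ∀ p, p.Prime → p ≤ (m + N + b + D * t * q + 2) ^ 50 →
      ∀ (α : Fin t → Fin q) (β γ : Fin t → ZMod p),
        powValue n q p (N ^ 2 * m * (D * t * q) + N * (D * t * q) + N) α β γ G = 0 := by
  constructor
  · rintro ⟨-, h0⟩ p _ _ α β γ
    rw [powValue_eq, h0, map_zero, map_zero]
  · intro htest
    refine ⟨hG, ?_⟩
    rcases hpoly with h0 | ⟨hF, hcls, hdvd⟩
    · exact h0
    exfalso
    obtain ⟨p, hp, hple, α, β, γ, hhit⟩ := exists_bin E k c n s q hq ht hQ hk hc hs m N b D f A e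
      hfn hAn hprim hfD hAD hfb hAb he hms hF hcls
    have h1 := htest p hp hple α β γ
    rw [powValue_eq, AdjoinRoot.mk_eq_zero] at h1
    exact hhit (h1.trans (map_dvd (lineM n q p α β γ) hdvd))

end Pool.Agent.TOR.H82
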